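import Pool.Agent.Lib.Pe70ed2.PCase

set_option autoImplicit false

namespace Pool.Agent.Results.MP_e70ed2_nt.MaximalDensity

open Pool.Agent.Lib.Pe70ed2

/-- For every nonzero integer polynomial `h`, and both for `X = h(ℤ)` and for `X = h(P)` with `P` the
set of primes, the maximal upper density `μ(X)` of a set of positive integers with no nonzero
difference in `X` equals `sup_m d_X(m) / m`. -/
theorem result (h : Polynomial ℤ) (hh : h ≠ 0) :
    mu {x : ℤ | ∃ n : ℤ, h.eval n = x} =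
      ⨆ m : ℕ+, (dX {x : ℤ | ∃ n : ℤ, h.eval n = x} (m : ℕ) : ℝ) / ((m : ℕ) : ℝ) ∧
    mu {x : ℤ | ∃ p : ℕ, p.Prime ∧ h.eval (p : ℤ) = x} =
      ⨆ m : ℕ+, (dX {x : ℤ | ∃ p : ℕ, p.Prime ∧ h.eval (p : ℤ) = x} (m : ℕ) : ℝ) / ((m : ℕ) : ℝ) :=
  ⟨mu_range h hh, mu_primeValues h hh⟩

end Pool.Agent.Results.MP_e70ed2_nt.MaximalDensity
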